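import Pool.Agent.S15538
import Pool.Agent.Helper29.OWN.E6Count

set_option autoImplicit false
open FirstOrder FirstOrder.Language Filter Topology

namespace Pool.Agent.Results.MP_e6168a_lc.ConnectedOscillation

/-- The Gaifman graph of a structure: two distinct elements are adjacent when they occur
together in a tuple of one of the relations. -/
def gaifman {L : FirstOrder.Language.{0, 0}} {m : ℕ} (A : L.Structure (Fin m)) :
    SimpleGraph (Fin m) :=
  SimpleGraph.fromRel fun x y => ∃ (k : ℕ) (R : L.Relations k) (t : Fin k → Fin m),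
    A.RelMap R t ∧ x ∈ Set.range t ∧ y ∈ Set.range t

/-- `Forb_n(F)`: the structures with universe `Fin n` that admit no homomorphism from any
member of `F`. -/
def forbSet {L : FirstOrder.Language.{0, 0}} (F : Set (Σ m : ℕ, L.Structure (Fin m)))
    (n : ℕ) : Set (L.Structure (Fin n)) :=
  {M | ∀ A ∈ F, IsEmpty (@FirstOrder.Language.Hom L (Fin A.1) (Fin n) A.2 M)}

/-- `μ_n(φ)`: the proportion of the structures in `Forb_n(F)` that satisfy `φ`. -/
noncomputable def mu {L : FirstOrder.Language.{0, 0}}
    (F : Set (Σ m : ℕ, L.Structure (Fin m))) (φ : L.Sentence) (n : ℕ) : ℝ :=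
  ({M ∈ forbSet F n | @Sentence.Realize L (Fin n) M φ}.ncard : ℝ) / ((forbSet F n).ncard : ℝ)

open Pool.Agent.S15538 (Lg Rel mkStr rels strEquiv phi phi_iff)
open Pool.Agent.Helper29.OWN.E6

/-- The second quadruple: its entry number `q` is the vertex number `p` of the first. -/
def sec (p q : Fin 4) : Fin 4 → Fin 7 :=
  Fin.insertNth (α := fun _ => Fin 7) q (Fin.castLE (by norm_num) p) ![4, 5, 6]

/-- The forbidden structures: `R_i (0,1,2,3)` together with a quadruple of the relation `o`
whose entry number `q` is `p`. -/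
@[reducible] def frb (i : Fin 4) (o : Option (Fin 4)) (p q : Fin 4) : Lg.Structure (Fin 7) :=
  mkStr (fun k v => (k = some i ∧ v = ![0, 1, 2, 3]) ∨ (k = o ∧ v = sec p q))

theorem first_eq (p : Fin 4) :
    (![0, 1, 2, 3] : Fin 4 → Fin 7) p = Fin.castLE (by norm_num) p := by
  fin_cases p <;> rfl

theorem sec_same (p q : Fin 4) : sec p q q = Fin.castLE (by norm_num) p := by
  unfold sec
  rw [Fin.insertNth_apply_same]

theorem sec_above (p q : Fin 4) (j : Fin 3) :
    sec p q (q.succAbove j) = (![4, 5, 6] : Fin 3 → Fin 7) j := by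
  unfold sec
  rw [Fin.insertNth_apply_succAbove]

theorem hom_iff (i : Fin 4) (o : Option (Fin 4)) (p q : Fin 4) {M : Type}
    (S : Lg.Structure M) :
    IsEmpty (@FirstOrder.Language.Hom Lg (Fin 7) M (frb i o p q) S) ↔
      ∀ s t, rels S (some i) s → rels S o t → s p ≠ t q := by
  constructor
  · intro h s t hs ht hst
    refine h.false (@FirstOrder.Language.Hom.mk Lg (Fin 7) M (frb i o p q) S
      (![s 0, s 1, s 2, s 3, t (q.succAbove 0), t (q.succAbove 1), t (q.succAbove 2)]) ?_ ?_)
    · intro n x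
      exact x.elim
    · intro n r v hv
      have e1 : (![s 0, s 1, s 2, s 3, t (q.succAbove 0), t (q.succAbove 1),
          t (q.succAbove 2)] ∘ (![0, 1, 2, 3] : Fin 4 → Fin 7)) = s := by
        funext a
        fin_cases a <;> rfl
      have e2 : (![s 0, s 1, s 2, s 3, t (q.succAbove 0), t (q.succAbove 1),
          t (q.succAbove 2)] ∘ sec p q) = t := by
        funext r
        obtain rfl | ⟨j, rfl⟩ := Fin.eq_self_or_eq_succAbove q r
        · rw [Function.comp_apply, sec_same, ← hst]
          fin_cases p <;> rfl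
        · rw [Function.comp_apply, sec_above]
          fin_cases j <;> rfl
      cases r with
      | mk k =>
        rcases hv with ⟨hk, hv⟩ | ⟨hk, hv⟩
        · obtain rfl : k = some i := hk
          obtain rfl : v = ![0, 1, 2, 3] := hv
          rw [e1]
          exact hs
        · obtain rfl : k = o := hk
          obtain rfl : v = sec p q := hv
          rw [e2]
          exact ht
  · intro h
    refine ⟨fun φ => ?_⟩
    have hR := @FirstOrder.Language.Hom.map_rel' Lg (Fin 7) M (frb i o p q) S φ 4
      (Rel.mk (some i)) ![0, 1, 2, 3] (Or.inl ⟨rfl, rfl⟩)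
    have hO := @FirstOrder.Language.Hom.map_rel' Lg (Fin 7) M (frb i o p q) S φ 4
      (Rel.mk o) (sec p q) (Or.inr ⟨rfl, rfl⟩)
    have he : (![0, 1, 2, 3] : Fin 4 → Fin 7) p = sec p q q := by rw [first_eq, sec_same]
    exact h _ _ hR hO (congrArg (@FirstOrder.Language.Hom.toFun Lg (Fin 7) M
      (frb i o p q) S φ) he)

theorem frb_connected (i : Fin 4) (o : Option (Fin 4)) (p q : Fin 4) :
    (gaifman (frb i o p q)).Connected := by
  have hadj : ∀ (k : Option (Fin 4)) (v : Fin 4 → Fin 7), (frb i o p q).RelMap (Rel.mk k) v →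
      ∀ a b, (gaifman (frb i o p q)).Reachable (v a) (v b) := by
    intro k v hv a b
    rcases eq_or_ne (v a) (v b) with hab | hab
    · rw [hab]
    · refine SimpleGraph.Adj.reachable ?_
      unfold gaifman
      rw [SimpleGraph.fromRel_adj]
      exact ⟨hab, Or.inl ⟨4, Rel.mk k, v, hv, ⟨a, rfl⟩, ⟨b, rfl⟩⟩⟩
  have h1 : ∀ a, (gaifman (frb i o p q)).Reachable (Fin.castLE (by norm_num) p)
      ((![0, 1, 2, 3] : Fin 4 → Fin 7) a) := by
    intro a
    rw [← first_eq p]
    exact hadj (some i) ![0, 1, 2, 3] (Or.inl ⟨rfl, rfl⟩) p a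
  have h2 : ∀ j, (gaifman (frb i o p q)).Reachable (Fin.castLE (by norm_num) p)
      ((![4, 5, 6] : Fin 3 → Fin 7) j) := by
    intro j
    rw [← sec_same p q, ← sec_above p q]
    exact hadj o (sec p q) (Or.inr ⟨rfl, rfl⟩) q (q.succAbove j)
  rw [SimpleGraph.connected_iff_exists_forall_reachable]
  refine ⟨Fin.castLE (by norm_num) p, fun w => ?_⟩
  fin_cases w
  · exact h1 0
  · exact h1 1
  · exact h1 2
  · exact h1 3
  · exact h2 0
  · exact h2 1
  · exact h2 2

/-- The forbidden family. -/
def Fam : Set (Σ m : ℕ, Lg.Structure (Fin m)) :=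
  Set.range (fun x : Fin 4 × Fin 4 × Fin 4 =>
      (⟨7, frb x.1 none x.2.1 x.2.2⟩ : Σ m : ℕ, Lg.Structure (Fin m))) ∪
    Set.range (fun x : Fin 4 × Fin 4 =>
      (⟨7, frb x.1 (some x.2) 1 0⟩ : Σ m : ℕ, Lg.Structure (Fin m)))

open Classical in
/-- A structure as the finite set of its facts. -/
noncomputable def code (n : ℕ) : Lg.Structure (Fin n) ≃ Finset (U n) where
  toFun := fun S => Finset.univ.filter (fun x => rels S x.1 x.2)
  invFun := fun E => mkStr (fun o t => (o, t) ∈ E)
  left_inv := by
    intro S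
    apply (strEquiv (Fin n)).injective
    funext o t
    change ((o, t) ∈ Finset.univ.filter (fun x : U n => rels S x.1 x.2)) = rels S o t
    simp
  right_inv := by
    intro E
    ext x
    rw [Finset.mem_filter]
    exact ⟨fun h => h.2, fun h => ⟨Finset.mem_univ _, h⟩⟩

theorem mem_code {n : ℕ} (S : Lg.Structure (Fin n)) (o : Option (Fin 4)) (t : Fin 4 → Fin n) :
    (o, t) ∈ code n S ↔ rels S o t := by
  classical
  simp [code]

theorem mem_forb {n : ℕ} (S : Lg.Structure (Fin n)) : S ∈ forbSet Fam n ↔ V (code n S) := by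
  unfold forbSet V
  simp only [Set.mem_ofPred_eq, mem_code]
  constructor
  · intro h
    refine ⟨?_, ?_⟩
    · intro i s t p q hs ht
      exact (hom_iff i none p q S).mp (h ⟨7, frb i none p q⟩ (Or.inl ⟨(i, p, q), rfl⟩)) s t hs ht
    · intro i j s t hs ht
      exact (hom_iff i (some j) 1 0 S).mp (h ⟨7, frb i (some j) 1 0⟩ (Or.inr ⟨(i, j), rfl⟩))
        s t hs ht
  · rintro ⟨h1, h2⟩ A (⟨⟨i, p, q⟩, rfl⟩ | ⟨⟨i, j⟩, rfl⟩)
    · exact (hom_iff i none p q S).mpr (fun s t hs ht => h1 i s t p q hs ht)
    · exact (hom_iff i (some j) 1 0 S).mpr (fun s t hs ht => h2 i j s t hs ht)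

theorem ncard_eq {α β : Type} [Fintype β] (e : α ≃ β) (s : Set α) (P : β → Prop)
    [DecidablePred P] (h : ∀ a, a ∈ s ↔ P (e a)) : s.ncard = (Finset.univ.filter P).card := by
  rw [← Nat.card_coe_set_eq, ← Fintype.card_subtype, ← Nat.card_eq_fintype_card]
  exact Nat.card_congr (Equiv.subtypeEquiv e h)

theorem mu_eq (n : ℕ) : mu Fam phi n = ratio n := by
  classical
  have h1 : {M ∈ forbSet Fam n | @Sentence.Realize Lg (Fin n) M phi}.ncard = NA n := by
    unfold NA
    refine ncard_eq (code n) _ _ (fun S => ?_)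
    refine and_congr (mem_forb S) ?_
    rw [phi_iff]
    exact exists_congr (fun t => (mem_code S none t).symm)
  have h2 : (forbSet Fam n).ncard = NA n + NC n := by
    rw [ncard_eq (code n) (forbSet Fam n) V mem_forb]
    unfold NA NC
    rw [← Finset.filter_filter, ← Finset.filter_filter]
    exact (Finset.card_filter_add_card_filter_not _).symm
  unfold mu ratio
  rw [h1, h2]

theorem result :
    ∃ (L : FirstOrder.Language.{0, 0}) (F : Set (Σ m : ℕ, L.Structure (Fin m)))
      (R : L.Relations 4) (φ : L.Sentence),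
      -- the signature: five relation symbols, all of arity four, no function symbols
      L.IsRelational ∧ (∀ k, k ≠ 4 → IsEmpty (L.Relations k)) ∧ Nat.card (L.Relations 4) = 5 ∧
      -- the forbidden structures: finitely many, all connected
      F.Finite ∧ (∀ A ∈ F, (gaifman A.2).Connected) ∧
      -- the sentence says that the relation `R` is nonempty
      (∀ (n : ℕ) (M : L.Structure (Fin n)),
        @Sentence.Realize L (Fin n) M φ ↔ ∃ t : Fin 4 → Fin n, M.RelMap R t) ∧
      -- the class is nonempty in every size, and the proportions oscillate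
      (∀ n : ℕ, (forbSet F n).Nonempty) ∧
      Tendsto (fun m : ℕ => mu F φ (2 * m)) atTop (𝓝 0) ∧
      Tendsto (fun m : ℕ => mu F φ (2 * m + 1)) atTop (𝓝 1) := by
  refine ⟨Lg, Fam, Rel.mk none, phi, ?_, ?_, ?_, ?_, ?_, ?_, ?_, ?_, ?_⟩
  · exact fun n => inferInstanceAs (IsEmpty Empty)
  · intro k hk
    refine ⟨fun r => ?_⟩
    cases r
    exact hk rfl
  · have e : Option (Fin 4) ≃ Lg.Relations 4 :=
      { toFun := fun o => Rel.mk o
        invFun := fun r => match r with
          | Rel.mk o => o
        left_inv := fun o => rfl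
        right_inv := fun r => by
          cases r
          rfl }
    rw [← Nat.card_congr e, Nat.card_eq_fintype_card]
    simp
  · exact (Set.finite_range _).union (Set.finite_range _)
  · rintro A (⟨⟨i, p, q⟩, rfl⟩ | ⟨⟨i, j⟩, rfl⟩)
    · exact frb_connected i none p q
    · exact frb_connected i (some j) 1 0
  · intro n M
    exact phi_iff M
  · intro n
    refine ⟨(code n).symm ∅, ?_⟩
    rw [mem_forb, Equiv.apply_symm_apply]
    exact ⟨by simp, by simp⟩
  · simp only [mu_eq]
    exact ratio_even
  · simp only [mu_eq]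
    exact ratio_odd

end Pool.Agent.Results.MP_e6168a_lc.ConnectedOscillation
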